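import Pool.Agent.H262R3.Lk.Stubs

set_option autoImplicit false

open Finset

namespace Pool.Agent.H262R3.Lk

open Pool.Agent.H318R2.Cr (Rgh V)

namespace W74B0

theorem bj_nonneg (z q b : ℕ) (σ : ℝ) (n : ℕ) : 0 ≤ bj z q b 0 σ n := by
  unfold bj
  split_ifs
  · rw [pow_zero]
    exact mul_nonneg ArithmeticFunction.vonMangoldt_nonneg (by positivity)
  · exact le_rfl

theorem bj_zero (z q b : ℕ) (σ : ℝ) (n : ℕ) (hz : 32 ≤ z) (hn : n ≤ z) : bj z q b 0 σ n = 0 := by
  unfold bj
  split_ifs with h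
  · obtain ⟨h1, h2⟩ := h
    by_cases h0 : n = 0
    · subst h0
      exact absurd (dvd_zero 2) (h1 2 Nat.prime_two (by omega))
    by_cases h11 : n = 1
    · subst h11
      simp
    · have hp := Nat.minFac_prime h11
      exact absurd (Nat.minFac_dvd n) (h1 _ hp ((Nat.minFac_le (Nat.pos_of_ne_zero h0)).trans hn))
  · rfl

theorem block (C : ℝ) (q b M : ℕ) (σ : ℝ) (z : ℕ) (hM : 1 ≤ M) (hσ : 0 < σ)
    (h : ∑ n ∈ (Icc 1 (2 * M)).filter (fun n => n ≡ b [MOD q]), ArithmeticFunction.vonMangoldt n ≤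
      C * ((2 * M : ℕ) : ℝ) / q.totient) :
    ∑ n ∈ Ioc M (2 * M), bj z q b 0 σ n ≤ 2 * C / q.totient * (M : ℝ) ^ (-σ) := by
  have hM0 : (0 : ℝ) < M := by exact_mod_cast hM
  have h1 : ∀ n ∈ Ioc M (2 * M), bj z q b 0 σ n ≤
      (M : ℝ) ^ (-(1 + σ)) * (if n ≡ b [MOD q] then ArithmeticFunction.vonMangoldt n else 0) := by
    intro n hn
    rw [mem_Ioc] at hn
    unfold bj
    by_cases h2 : n ≡ b [MOD q]
    · simp only [h2, and_true, if_true]
      have hL := ArithmeticFunction.vonMangoldt_nonneg (n := n)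
      have h3 : (1 : ℝ) / (n : ℝ) ^ (1 + σ) ≤ (M : ℝ) ^ (-(1 + σ)) := by
        rw [Real.rpow_neg hM0.le, ← one_div]
        apply one_div_le_one_div_of_le (Real.rpow_pos_of_pos hM0 _)
        exact Real.rpow_le_rpow hM0.le (by exact_mod_cast hn.1.le) (by linarith)
      split_ifs
      · rw [pow_zero, mul_comm]
        exact mul_le_mul_of_nonneg_right h3 hL
      · exact mul_nonneg (Real.rpow_nonneg hM0.le _) hL
    · simp [h2]
  refine (sum_le_sum h1).trans ?_
  rw [← mul_sum]
  have h4 : ∑ n ∈ Ioc M (2 * M), (if n ≡ b [MOD q] then ArithmeticFunction.vonMangoldt n else 0) ≤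
      C * ((2 * M : ℕ) : ℝ) / q.totient := by
    refine le_trans ?_ h
    rw [sum_filter]
    refine sum_le_sum_of_subset_of_nonneg ?_ ?_
    · intro n hn
      rw [mem_Ioc] at hn
      rw [mem_Icc]
      omega
    · intro n _ _
      split_ifs
      · exact ArithmeticFunction.vonMangoldt_nonneg
      · exact le_rfl
  refine (mul_le_mul_of_nonneg_left h4 (Real.rpow_nonneg hM0.le _)).trans (le_of_eq ?_)
  have h5 : (M : ℝ) ^ (-(1 + σ)) * (M : ℝ) = (M : ℝ) ^ (-σ) := by
    conv_lhs => rw [← Real.rpow_one (M : ℝ), ← Real.rpow_mul hM0.le, one_mul,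
      ← Real.rpow_add hM0]
    congr 1; ring
  rw [← h5]
  push_cast
  ring

end W74B0

open W74B0 in
theorem b0 (hBT : St_BT) (_hSUM : St_SUM) : St_B0 := by
  obtain ⟨C, hC, hBT⟩ := hBT
  refine ⟨4 * C, by positivity, fun z q b σ hz hq hqz hb hσ hσz => ?_⟩
  have hz0 : (0 : ℝ) < z := by
    have : 0 < z := by omega
    exact_mod_cast this
  have hlog : 1 ≤ Real.log z := by
    rw [Real.le_log_iff_exp_le hz0]
    have h1 : (32 : ℝ) ≤ z := by exact_mod_cast hz
    linarith [Real.exp_one_lt_d9]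
  have hσ1 : σ ≤ 1 := by
    nlinarith
  have hφ : (0 : ℝ) < q.totient := by exact_mod_cast Nat.totient_pos.2 (by omega)
  set r : ℝ := (1 / 2 : ℝ) ^ σ with hr
  have hr0 : 0 < r := Real.rpow_pos_of_pos (by norm_num) _
  have hr1 : r ≤ 1 - σ / 2 := by
    have := rpow_one_add_le_one_add_mul_self (s := -(1 / 2 : ℝ)) (by norm_num) hσ.le hσ1
    rw [hr]
    have e : (1 + -(1 / 2) : ℝ) = 1 / 2 := by norm_num
    rw [e] at this
    linarith
  have key : ∀ K : ℕ, ∑ n ∈ Icc 1 (2 ^ K * z), bj z q b 0 σ n ≤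
      ∑ i ∈ range K, 2 * C / q.totient * r ^ i := by
    intro K
    induction K with
    | zero =>
      rw [sum_range_zero]
      refine le_of_eq (sum_eq_zero fun n hn => ?_)
      rw [mem_Icc] at hn
      exact bj_zero z q b σ n hz (by simpa using hn.2)
    | succ K ih =>
      have hM : z ≤ 2 ^ K * z := Nat.le_mul_of_pos_left _ (by positivity)
      have e : Icc 1 (2 ^ (K + 1) * z) = Icc 1 (2 ^ K * z) ∪ Ioc (2 ^ K * z) (2 * (2 ^ K * z)) := by
        ext n
        simp only [mem_union, mem_Icc, mem_Ioc]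
        rw [pow_succ]
        constructor
        · intro h
          rcases Nat.lt_or_ge (2 ^ K * z) n with h2 | h2
          · right; exact ⟨h2, by linarith [h.2]⟩
          · left; exact ⟨h.1, h2⟩
        · rintro (h | h)
          · exact ⟨h.1, by linarith [h.2]⟩
          · exact ⟨by omega, by linarith [h.2]⟩
      rw [e, sum_union, sum_range_succ]
      · refine add_le_add ih ?_
        refine (block C q b (2 ^ K * z) σ z (by omega) hσ
          (hBT q b (2 * (2 ^ K * z)) (by omega) hq (by omega) hb)).trans ?_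
        refine mul_le_mul_of_nonneg_left ?_ (by positivity)
        rw [hr, ← Real.rpow_natCast, ← Real.rpow_mul (by norm_num), mul_comm σ,
          Real.rpow_mul (by norm_num), Real.rpow_natCast, Real.rpow_neg (by positivity),
          ← Real.inv_rpow (by positivity)]
        refine Real.rpow_le_rpow (by positivity) ?_ hσ.le
        rw [one_div, inv_pow]
        refine inv_anti₀ (by positivity) ?_
        push_cast
        have : (1 : ℝ) ≤ z := by exact_mod_cast (by omega : 1 ≤ z)
        exact le_mul_of_one_le_right (by positivity) this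
      · rw [disjoint_left]
        intro n h1 h2
        rw [mem_Icc] at h1
        rw [mem_Ioc] at h2
        omega
  have hgeo : ∀ K : ℕ, ∑ i ∈ range K, 2 * C / q.totient * r ^ i ≤ 4 * C / (q.totient * σ) := by
    intro K
    rw [← mul_sum]
    have h1 : ∑ i ∈ range K, r ^ i ≤ 2 / σ := by
      have h2 := geom_sum_eq (x := r) (by linarith) K
      rw [h2, ← neg_div_neg_eq, neg_sub, neg_sub]
      rw [div_le_div_iff₀ (by linarith) hσ]
      have h3 : 0 < r ^ K := pow_pos hr0 K
      nlinarith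
    calc 2 * C / (q.totient : ℝ) * ∑ i ∈ range K, r ^ i ≤ 2 * C / (q.totient : ℝ) * (2 / σ) :=
          mul_le_mul_of_nonneg_left h1 (by positivity)
      _ = 4 * C / (q.totient * σ) := by field_simp; ring
  unfold Bj
  refine Real.tsum_le_of_sum_range_le (fun n => bj_nonneg z q b σ n) fun N => ?_
  have h1 : ∑ n ∈ range N, bj z q b 0 σ n ≤ ∑ n ∈ Icc 1 (2 ^ N * z), bj z q b 0 σ n := by
    have h2 : ∑ n ∈ range N, bj z q b 0 σ n ≤
        ∑ n ∈ insert 0 (Icc 1 (2 ^ N * z)), bj z q b 0 σ n := by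
      refine sum_le_sum_of_subset_of_nonneg ?_ (fun n _ _ => bj_nonneg z q b σ n)
      intro n hn
      rw [mem_range] at hn
      rw [mem_insert, mem_Icc]
      have h3 : N < 2 ^ N := Nat.lt_two_pow_self
      have h4 : 2 ^ N ≤ 2 ^ N * z := Nat.le_mul_of_pos_right _ (by omega)
      omega
    rw [sum_insert (by simp), bj_zero z q b σ 0 hz (by omega), zero_add] at h2
    exact h2
  exact h1.trans ((key N).trans (hgeo N))

end Pool.Agent.H262R3.Lk
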